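import Pool.Agent.H9.Lap.Targets

/-! Modules DEG and CLQ of the Laplacian index board (MP_c4ad93_co). -/

namespace Pool.Agent.H62.Lap

open Finset Classical Pool.Agent.H9.Lap

/-- DEG -/
theorem deg : T_DEG := by
  intro V _ F t h v
  by_contra hlt
  push Not at hlt
  obtain ⟨w, hw⟩ := h (insert v (nb F v)) (by
    refine (Finset.card_insert_le _ _).trans ?_
    omega)
  have h1 : F.Adj w v := hw v (by simp)
  have h2 := hw w (by rw [Finset.mem_insert, mem_nb]; exact Or.inr h1.symm)
  exact F.loopless.irrefl w h2

/-- CLQ -/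
theorem clq : T_CLQ := by
  intro V _ F t h u v hK
  set K := nb F u ∩ nb F v with hKd
  have memK : ∀ w, F.Adj w u → F.Adj w v → w ∈ K := by
    intro w h1 h2
    rw [hKd, Finset.mem_inter, mem_nb, mem_nb]
    exact ⟨h1.symm, h2.symm⟩
  have irr : ∀ w, ¬ F.Adj w w := fun w => F.loopless.irrefl w
  have hclique : ∀ k ∈ K, ∀ k' ∈ K, k ≠ k' → F.Adj k k' := by
    intro k hk k' hk' hne
    have hcard : (K.erase k).card = t - 1 := by rw [Finset.card_erase_of_mem hk, hK]
    have ht : 1 ≤ t := by
      rw [← hK]; exact Finset.card_pos.2 ⟨k, hk⟩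
    obtain ⟨w, hw⟩ := h (insert u (insert v (K.erase k))) (by
      refine (Finset.card_insert_le _ _).trans ?_
      have := Finset.card_insert_le v (K.erase k)
      omega)
    have h1 : F.Adj w u := hw u (by simp)
    have h2 : F.Adj w v := hw v (by simp)
    have h3 := memK w h1 h2
    have h4 : w = k := by
      by_contra hwk
      exact irr w (hw w (by simp [h3, hwk]))
    rw [← h4]
    exact hw k' (by
      simp only [Finset.mem_insert, Finset.mem_erase]
      exact Or.inr (Or.inr ⟨hne.symm, hk'⟩))
  have hout : ∀ k ∈ K, Disjoint (nn F k) K := by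
    intro k hk
    rw [Finset.disjoint_left]
    intro x hx hxK
    rw [mem_nn] at hx
    exact hx.2 (hclique k hk x hxK hx.1.symm)
  refine ⟨hclique, ?_, hout, ?_⟩
  · intro k hk k' hk' hne
    rw [Finset.disjoint_left]
    intro x hx hx'
    rw [mem_nn] at hx hx'
    have hk2 : k' ∈ K.erase k := Finset.mem_erase.2 ⟨hne.symm, hk'⟩
    have hc1 : (K.erase k).card = t - 1 := by rw [Finset.card_erase_of_mem hk, hK]
    have hc2 : ((K.erase k).erase k').card = t - 1 - 1 := by
      rw [Finset.card_erase_of_mem hk2, hc1]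
    have hc3 : 0 < (K.erase k).card := Finset.card_pos.2 ⟨k', hk2⟩
    obtain ⟨w, hw⟩ := h (insert u (insert v (insert x ((K.erase k).erase k')))) (by
      refine (Finset.card_insert_le _ _).trans ?_
      have e1 := Finset.card_insert_le v (insert x ((K.erase k).erase k'))
      have e2 := Finset.card_insert_le x ((K.erase k).erase k')
      omega)
    have h1 : F.Adj w u := hw u (by simp)
    have h2 : F.Adj w v := hw v (by simp)
    have h3 : F.Adj w x := hw x (by simp)
    have h4 := memK w h1 h2
    by_cases e1 : w = k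
    · rw [e1] at h3; exact hx.2 h3
    by_cases e2 : w = k'
    · rw [e2] at h3; exact hx'.2 h3
    exact irr w (hw w (by simp [h4, e1, e2]))
  · intro k hk x hx v'
    rw [mem_nn] at hx
    have hcard : (K.erase k).card = t - 1 := by rw [Finset.card_erase_of_mem hk, hK]
    have ht : 1 ≤ t := by
      rw [← hK]; exact Finset.card_pos.2 ⟨k, hk⟩
    obtain ⟨w, hw⟩ := h (insert x (insert v' (K.erase k))) (by
      refine (Finset.card_insert_le _ _).trans ?_
      have := Finset.card_insert_le v' (K.erase k)
      omega)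
    have h1 : F.Adj w x := hw x (by simp)
    have h2 : F.Adj w v' := hw v' (by simp)
    have h3 : ∀ k' ∈ K, k' ≠ k → F.Adj w k' := by
      intro k' hk' hne
      exact hw k' (by
        simp only [Finset.mem_insert, Finset.mem_erase]
        exact Or.inr (Or.inr ⟨hne, hk'⟩))
    refine ⟨w, ?_, h1, h2⟩
    rw [WW, Finset.mem_filter]
    refine ⟨Finset.mem_univ _, ?_, h3⟩
    intro hwK
    by_cases e : w = k
    · rw [e] at h1; exact hx.2 h1
    · exact irr w (h3 w hwK e)

end Pool.Agent.H62.Lap
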