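import Pool.Agent.H9.Lap.Targets

/-! Module G0 of the Laplacian index board (MP_c4ad93_co). -/

namespace Pool.Agent.H62.Lap

open Finset Classical Pool.Agent.H9.Lap

/-- G0 -/
theorem g0 (h1 : T_MIN) (h2 : T_DEG) (h3 : T_CLQ) : T_G0 := by
  intro V _ F f t lam hC hf a ha hsm hL6
  obtain ⟨e0, g0, het, hem, hgm, ⟨s0, hs0, hs0e⟩, ⟨w0, hw0, hw0g⟩, hsum⟩ := h1 V F f t lam hC hf
  have irr : ∀ w, ¬ F.Adj w w := fun w => F.loopless.irrefl w
  have pa : 0 < f a := lt_of_lt_of_le hs0 (ha s0)
  have hPhi : 0 < Phi f := by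
    have := Finset.single_le_sum (fun v hv => (mem_Pos.1 hv).le) (mem_Pos.2 hs0)
    rw [Phi]
    linarith
  have tA : ∀ s ∈ Pos f, 0 ≤ ((ed F f s : ℝ) - e0) * f s := by
    intro s hs
    have := hem s (mem_Pos.1 hs)
    have h' : (e0 : ℝ) ≤ ed F f s := by exact_mod_cast this
    exact mul_nonneg (by linarith) (mem_Pos.1 hs).le
  have tB : 0 ≤ ∑ w ∈ Npos f, ((gd F f w : ℝ) - g0) * (- f w) := by
    refine Finset.sum_nonneg fun w hw => ?_
    rcases eq_or_lt_of_le (mem_Npos.1 hw) with h | h
    · rw [h]; simp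
    · have := hgm w h
      have h' : (g0 : ℝ) ≤ gd F f w := by exact_mod_cast this
      exact mul_nonneg (by linarith) (by linarith)
  have hLP : 0 ≤ (lam - t) * Phi f := by
    have := Finset.sum_nonneg tA
    linarith
  have hL0 : 0 ≤ lam - t := by
    by_contra hcon
    push Not at hcon
    have := mul_neg_of_neg_of_pos hcon hPhi
    linarith
  have star : ∀ Q : Finset V, Q ⊆ Pos f → (∀ s ∈ Q, e0 + 1 ≤ ed F f s) →
      ∑ s ∈ Q, f s ≤ (lam - t) * Phi f := by
    intro Q hQ hQe
    have e1 : ∑ s ∈ Q, f s ≤ ∑ s ∈ Q, ((ed F f s : ℝ) - e0) * f s := by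
      refine Finset.sum_le_sum fun s hs => ?_
      have h' : (e0 : ℝ) + 1 ≤ ed F f s := by exact_mod_cast hQe s hs
      have hp := mem_Pos.1 (hQ hs)
      nlinarith
    have e2 : ∑ s ∈ Q, ((ed F f s : ℝ) - e0) * f s ≤ ∑ s ∈ Pos f, ((ed F f s : ℝ) - e0) * f s :=
      Finset.sum_le_sum_of_subset_of_nonneg hQ fun s hs _ => tA s hs
    linarith
  have hea : ed F f a = e0 := by
    by_contra hcon
    have h' : e0 + 1 ≤ ed F f a := by
      have := hem a pa
      omega
    have := star {a} (by simpa [mem_Pos] using pa) (by simpa using h')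
    simp at this
    linarith
  rcases Nat.eq_zero_or_pos g0 with hg | hg
  · subst hg
    have he : e0 = t := by omega
    subst he
    exact ⟨w0, ⟨hC, hL0, ha, pa, hsm, hL6, hem, hw0, hw0g⟩⟩
  exfalso
  set Ca := nb F a ∩ Npos f with hCa
  set D0 := nb F w0 ∩ Pos f with hD0
  have hCac : Ca.card = e0 := by rw [← hea, ed, hCa]
  have hD0c : D0.card = g0 := by rw [← hw0g, gd, hD0]
  have hdisj : Disjoint Ca D0 :=
    Finset.disjoint_of_subset_left Finset.inter_subset_right
      (Finset.disjoint_of_subset_right Finset.inter_subset_right (disj_Pos_Npos f).symm)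
  set K := Ca ∪ D0 with hK
  have hKc : K.card = t := by
    rw [hK, Finset.card_union_of_disjoint hdisj, hCac, hD0c, het]
  have hKe : nb F a ∩ nb F w0 = K := by
    refine Finset.eq_of_subset_of_card_le ?_ (by rw [hKc]; exact pair_card hC.cn a w0)
    intro x hx
    rw [Finset.mem_inter] at hx
    rw [hK, Finset.mem_union, hCa, hD0, Finset.mem_inter, Finset.mem_inter]
    rcases le_or_gt (f x) 0 with h | h
    · exact Or.inl ⟨hx.1, mem_Npos.2 h⟩
    · exact Or.inr ⟨hx.2, mem_Pos.2 h⟩
  have hclq := h3 V F t hC.cn a w0 (by rw [hKe, hKc])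
  rw [hKe] at hclq
  have hKa : ∀ k ∈ K, F.Adj a k := by
    intro k hk
    rw [← hKe, Finset.mem_inter, mem_nb] at hk
    exact hk.1
  have hKw : ∀ k ∈ K, F.Adj w0 k := by
    intro k hk
    rw [← hKe, Finset.mem_inter, mem_nb, mem_nb] at hk
    exact hk.2
  have hCaK : Ca ⊆ K := Finset.subset_union_left
  have hDK : D0 ⊆ K := Finset.subset_union_right
  have hDe : ∀ d ∈ D0, e0 + 1 ≤ ed F f d := by
    intro d hd
    have hsub : insert w0 Ca ⊆ nb F d ∩ Npos f := by
      intro x hx
      rw [Finset.mem_insert] at hx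
      rw [Finset.mem_inter, mem_nb]
      rcases hx with rfl | hx
      · exact ⟨(hKw d (hDK hd)).symm, mem_Npos.2 hw0.le⟩
      · refine ⟨hclq.clique d (hDK hd) x (hCaK hx) ?_, (Finset.mem_inter.1 hx).2⟩
        rintro rfl
        exact Finset.disjoint_left.1 hdisj hx hd
    have hnot : w0 ∉ Ca := fun h => irr w0 (hKw w0 (hCaK h))
    have := Finset.card_le_card hsub
    rw [Finset.card_insert_of_notMem hnot, hCac] at this
    exact this
  obtain ⟨d, hd⟩ : D0.Nonempty := Finset.card_pos.1 (by omega)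
  have hdp : 0 < f d := mem_Pos.1 (Finset.mem_inter.1 hd).2
  have hdK := hDK hd
  -- a negative non-neighbour of `d`
  obtain ⟨x, hxn, hxd⟩ : ∃ x, f x < 0 ∧ ¬ F.Adj d x := by
    by_contra hcon
    push Not at hcon
    have ed1 := hC.eig d
    rw [Finset.sum_sub_distrib, Finset.sum_const, nsmul_eq_mul] at ed1
    have hS : ∑ w ∈ nb F d, f w ≤ - f d := by
      have e1 : ∑ w ∈ nb F d, f w + ∑ w ∈ univ \ nb F d, f w = 0 := by
        rw [← hC.sum0, add_comm]
        exact Finset.sum_sdiff (Finset.subset_univ _)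
      have e2 : f d ≤ ∑ w ∈ univ \ nb F d, f w := by
        refine Finset.single_le_sum (f := f) (fun w hw => ?_) ?_
        · by_contra hneg
          push Not at hneg
          exact (Finset.mem_sdiff.1 hw).2 (mem_nb.2 (hcon w hneg))
        · rw [Finset.mem_sdiff, mem_nb]
          exact ⟨Finset.mem_univ _, irr d⟩
      linarith
    have hdeg : ((t : ℝ) + 1) ≤ (nb F d).card := by exact_mod_cast h2 V F t hC.cn d
    have h4 : ((nb F d).card + 1 : ℝ) * f d ≤ lam * f d := by linarith
    have h5 : ((nb F d).card + 1 : ℝ) ≤ lam := le_of_mul_le_mul_right h4 hdp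
    have := hC.lt
    linarith
  have hxd' : x ≠ d := by
    rintro rfl
    linarith
  obtain ⟨y, hy⟩ := hC.cn (insert a (insert x (K.erase d))) (by
    refine (Finset.card_insert_le _ _).trans ?_
    have e1 := Finset.card_insert_le x (K.erase d)
    have e2 : (K.erase d).card = t - 1 := by rw [Finset.card_erase_of_mem hdK, hKc]
    have e3 : 1 ≤ t := hC.t1
    omega)
  have hya : F.Adj y a := hy a (by simp)
  have hyx : F.Adj y x := hy x (by simp)
  have hyK : ∀ k ∈ K, k ≠ d → F.Adj y k := by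
    intro k hk hkd
    exact hy k (by
      simp only [Finset.mem_insert, Finset.mem_erase]
      exact Or.inr (Or.inr ⟨hkd, hk⟩))
  have hynK : y ∉ K := by
    intro hyK'
    by_cases e : y = d
    · rw [e] at hyx; exact hxd hyx
    · exact irr y (hyK y hyK' e)
  have hyp : 0 < f y := by
    by_contra hcon
    push Not at hcon
    exact hynK (hCaK (by rw [hCa, Finset.mem_inter, mem_nb, mem_Npos]; exact ⟨hya.symm, hcon⟩))
  have hye : e0 + 1 ≤ ed F f y := by
    have hsub : insert x Ca ⊆ nb F y ∩ Npos f := by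
      intro z hz
      rw [Finset.mem_insert] at hz
      rw [Finset.mem_inter, mem_nb]
      rcases hz with rfl | hz
      · exact ⟨hyx, mem_Npos.2 hxn.le⟩
      · refine ⟨hyK z (hCaK hz) ?_, (Finset.mem_inter.1 hz).2⟩
        rintro rfl
        exact Finset.disjoint_left.1 hdisj hz hd
    have hnot : x ∉ Ca := by
      intro h
      exact hxd (hclq.clique d hdK x (hCaK h) hxd'.symm)
    have := Finset.card_le_card hsub
    rw [Finset.card_insert_of_notMem hnot, hCac] at this
    exact this
  -- the set `Q`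
  have hyD : y ∉ D0 := fun h => hynK (hDK h)
  have hQP : insert y D0 ⊆ Pos f := by
    intro z hz
    rw [Finset.mem_insert] at hz
    rcases hz with rfl | hz
    · exact mem_Pos.2 hyp
    · exact (Finset.mem_inter.1 hz).2
  have hQ := star (insert y D0) hQP (by
    intro s hs
    rw [Finset.mem_insert] at hs
    rcases hs with rfl | hs
    · exact hye
    · exact hDe s hs)
  have hQc : (insert y D0).card = g0 + 1 := by
    rw [Finset.card_insert_of_notMem hyD, hD0c]
  have hdis2 : Disjoint Ca (insert y D0) := by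
    rw [Finset.disjoint_insert_right]
    exact ⟨fun h => hynK (hCaK h), hdisj⟩
  have hsubN : Ca ∪ insert y D0 ⊆ nb F a := by
    intro z hz
    rw [Finset.mem_union, Finset.mem_insert] at hz
    rw [mem_nb]
    rcases hz with hz | rfl | hz
    · exact hKa z (hCaK hz)
    · exact hya.symm
    · exact hKa z (hDK hz)
  have hea2 := hC.eig a
  have hge : ∑ w ∈ Ca ∪ insert y D0, (f a - f w) ≤ ∑ w ∈ nb F a, (f a - f w) :=
    Finset.sum_le_sum_of_subset_of_nonneg hsubN fun w _ _ => by linarith [ha w]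
  rw [Finset.sum_union hdis2] at hge
  have hg1 : (e0 : ℝ) * f a ≤ ∑ w ∈ Ca, (f a - f w) := by
    have : ∑ w ∈ Ca, f a ≤ ∑ w ∈ Ca, (f a - f w) := by
      refine Finset.sum_le_sum fun w hw => ?_
      have := mem_Npos.1 (Finset.mem_inter.1 hw).2
      linarith
    rw [Finset.sum_const, nsmul_eq_mul, hCac] at this
    exact this
  have hg2 : ((g0 : ℝ) + 1) * f a - (lam - t) * Phi f ≤ ∑ w ∈ insert y D0, (f a - f w) := by
    rw [Finset.sum_sub_distrib, Finset.sum_const, nsmul_eq_mul, hQc]
    push_cast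
    linarith
  have htr : (t : ℝ) = e0 + g0 := by exact_mod_cast het.symm
  have hfin : (t + 1 : ℝ) * f a - (lam - t) * Phi f ≤ lam * f a := by
    have h9 : (t + 1 : ℝ) * f a = e0 * f a + (g0 + 1) * f a := by rw [htr]; ring
    linarith
  have : (lam - t) * f a < 1 / 6 * f a := mul_lt_mul_of_pos_right hL6 pa
  nlinarith

end Pool.Agent.H62.Lap
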