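import Pool.Agent.H9.Lap.Targets

/-! Modules KAB and MIN of the Laplacian index board (MP_c4ad93_co). -/

namespace Pool.Agent.H62.Lap

open Finset Classical Pool.Agent.H9.Lap

/-- the maximum of a nonzero function of sum zero is positive, the minimum negative -/
theorem max_pos {V : Type} [Fintype V] {f : V → ℝ} (h0 : ∑ v, f v = 0) (hf : ∃ v, f v ≠ 0) :
    (∃ v, 0 < f v) ∧ ∃ v, f v < 0 := by
  obtain ⟨x, hx⟩ := hf
  constructor
  · by_contra hcon
    push Not at hcon
    have h1 : ∀ v ∈ (univ : Finset V), 0 ≤ - f v := fun v _ => by linarith [hcon v]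
    have h2 : ∑ v, (- f v) = 0 := by rw [Finset.sum_neg_distrib, h0, neg_zero]
    have h3 := (Finset.sum_eq_zero_iff_of_nonneg h1).1 h2 x (Finset.mem_univ _)
    exact hx (by linarith)
  · by_contra hcon
    push Not at hcon
    have h1 : ∀ v ∈ (univ : Finset V), 0 ≤ f v := fun v _ => hcon v
    exact hx ((Finset.sum_eq_zero_iff_of_nonneg h1).1 h0 x (Finset.mem_univ _))

/-- KAB -/
theorem kab : T_KAB := by
  intro V _ F f t lam hC hf a b ha hb
  obtain ⟨⟨p, hp⟩, ⟨q, hq⟩⟩ := max_pos hC.sum0 hf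
  have pa : 0 < f a := lt_of_lt_of_le hp (ha p)
  have nb0 : f b < 0 := lt_of_le_of_lt (hb q) hq
  set K := nb F a ∩ nb F b with hKd
  have ea := hC.eig a
  have eb := hC.eig b
  rw [← Finset.sum_inter_add_sum_sdiff (nb F a) (nb F b), ← hKd] at ea
  rw [← Finset.sum_inter_add_sum_sdiff (nb F b) (nb F a), Finset.inter_comm, ← hKd] at eb
  have eK : ∑ w ∈ K, (f a - f w) - ∑ w ∈ K, (f b - f w) = (K.card : ℝ) * (f a - f b) := by
    rw [← Finset.sum_sub_distrib]
    rw [Finset.sum_congr rfl (fun w _ => show (f a - f w) - (f b - f w) = f a - f b by ring)]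
    rw [Finset.sum_const, nsmul_eq_mul]
  have key : ∑ w ∈ nb F a \ nb F b, (f a - f w) + ∑ w ∈ nb F b \ nb F a, (f w - f b)
      = (lam - K.card) * (f a - f b) := by
    have e2 : ∑ w ∈ nb F b \ nb F a, (f w - f b) = - ∑ w ∈ nb F b \ nb F a, (f b - f w) := by
      rw [← Finset.sum_neg_distrib]
      exact Finset.sum_congr rfl fun w _ => by ring
    rw [e2]
    linarith
  have n1 : ∀ w ∈ nb F a \ nb F b, 0 ≤ f a - f w := fun w _ => by linarith [ha w]
  have n2 : ∀ w ∈ nb F b \ nb F a, 0 ≤ f w - f b := fun w _ => by linarith [hb w]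
  have s1 := Finset.sum_nonneg n1
  have s2 := Finset.sum_nonneg n2
  have hD : 0 < f a - f b := by linarith
  have hK1 : (K.card : ℝ) ≤ lam := by
    by_contra hcon
    push Not at hcon
    have : (lam - K.card) * (f a - f b) < 0 := mul_neg_of_neg_of_pos (by linarith) hD
    linarith
  have hKt : t ≤ K.card := pair_card hC.cn a b
  have hKt2 : K.card ≤ t := by
    have h1 : (K.card : ℝ) < t + 1 := lt_of_le_of_lt hK1 hC.lt
    have h2 : K.card < t + 1 := by exact_mod_cast h1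
    omega
  have hKe : K.card = t := le_antisymm hKt2 hKt
  rw [hKe] at key hK1
  have na : ∀ y ∈ nb F a, y ∉ nb F b → f a - f y ≤ (lam - t) * (f a - f b) := by
    intro y hy hy2
    have := Finset.single_le_sum n1 (Finset.mem_sdiff.2 ⟨hy, hy2⟩)
    linarith
  have nB : ∀ z ∈ nb F b, z ∉ nb F a → f z - f b ≤ (lam - t) * (f a - f b) := by
    intro y hy hy2
    have := Finset.single_le_sum n2 (Finset.mem_sdiff.2 ⟨hy, hy2⟩)
    linarith
  refine ⟨by linarith, pa, nb0, ?_, hKe, na, nB⟩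
  intro hab
  have h1 := na b (mem_nb.2 hab) (by rw [mem_nb]; exact F.loopless.irrefl b)
  have h2 : (lam - t) * (f a - f b) < 1 * (f a - f b) :=
    mul_lt_mul_of_pos_right (by linarith [hC.lt]) hD
  linarith

/-- MIN -/
theorem min : T_MIN := by
  intro V _ F f t lam hC hf
  obtain ⟨⟨p, hp⟩, ⟨q, hq⟩⟩ := max_pos hC.sum0 hf
  obtain ⟨s0, hs0, hs0m⟩ := Finset.exists_min_image (Pos f) (fun s => ed F f s)
    ⟨p, mem_Pos.2 hp⟩
  obtain ⟨w0, hw0, hw0m⟩ := Finset.exists_min_image (univ.filter (fun w => f w < 0))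
    (fun w => gd F f w) ⟨q, by simp [hq]⟩
  have hs0' : 0 < f s0 := mem_Pos.1 hs0
  have hw0' : f w0 < 0 := (Finset.mem_filter.1 hw0).2
  have hem : ∀ s, 0 < f s → ed F f s0 ≤ ed F f s := fun s hs => hs0m s (mem_Pos.2 hs)
  have hgm : ∀ w, f w < 0 → gd F f w0 ≤ gd F f w := fun w hw => hw0m w (by simp [hw])
  have hPhi : 0 < Phi f := by
    have := Finset.single_le_sum (fun v hv => (mem_Pos.1 hv).le) (mem_Pos.2 hp)
    rw [Phi]
    linarith
  have hlow : t ≤ ed F f s0 + gd F f w0 := by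
    have h1 := pair_card hC.cn s0 w0
    have h2 : nb F s0 ∩ nb F w0 ⊆ (nb F s0 ∩ Npos f) ∪ (nb F w0 ∩ Pos f) := by
      intro x hx
      rw [Finset.mem_inter] at hx
      rw [Finset.mem_union, Finset.mem_inter, Finset.mem_inter]
      rcases le_or_gt (f x) 0 with h | h
      · exact Or.inl ⟨hx.1, mem_Npos.2 h⟩
      · exact Or.inr ⟨hx.2, mem_Pos.2 h⟩
    have h3 := (Finset.card_le_card h2).trans (Finset.card_union_le _ _)
    rw [ed, gd]
    omega
  have hid := idt hC.eig (F := F) (f := f)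
  have hA : ∑ s ∈ Pos f, ((ed F f s : ℝ) - ed F f s0) * f s
      = ∑ s ∈ Pos f, (ed F f s : ℝ) * f s - ed F f s0 * Phi f := by
    rw [Phi, Finset.mul_sum, ← Finset.sum_sub_distrib]
    exact Finset.sum_congr rfl fun s _ => by ring
  have hB : ∑ w ∈ Npos f, ((gd F f w : ℝ) - gd F f w0) * (- f w)
      = ∑ w ∈ Npos f, (gd F f w : ℝ) * (- f w) - gd F f w0 * Phi f := by
    rw [← Phi_eq hC.sum0, Finset.mul_sum, ← Finset.sum_sub_distrib]
    exact Finset.sum_congr rfl fun s _ => by ring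
  have hA0 : 0 ≤ ∑ s ∈ Pos f, ((ed F f s : ℝ) - ed F f s0) * f s := by
    refine Finset.sum_nonneg fun s hs => mul_nonneg ?_ (mem_Pos.1 hs).le
    have := hem s (mem_Pos.1 hs)
    have h' : (ed F f s0 : ℝ) ≤ ed F f s := by exact_mod_cast this
    linarith
  have hB0 : 0 ≤ ∑ w ∈ Npos f, ((gd F f w : ℝ) - gd F f w0) * (- f w) := by
    refine Finset.sum_nonneg fun w hw => ?_
    rcases eq_or_lt_of_le (mem_Npos.1 hw) with h | h
    · rw [h]; simp
    · have := hgm w h
      have h' : (gd F f w0 : ℝ) ≤ gd F f w := by exact_mod_cast this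
      exact mul_nonneg (by linarith) (by linarith)
  have hsum : ∑ s ∈ Pos f, ((ed F f s : ℝ) - ed F f s0) * f s +
      ∑ w ∈ Npos f, ((gd F f w : ℝ) - gd F f w0) * (- f w)
      = (lam - (ed F f s0 + gd F f w0 : ℕ)) * Phi f := by
    rw [hA, hB]
    push_cast
    linarith
  have hle : ((ed F f s0 + gd F f w0 : ℕ) : ℝ) ≤ lam := by
    by_contra hcon
    push Not at hcon
    have : (lam - (ed F f s0 + gd F f w0 : ℕ)) * Phi f < 0 :=
      mul_neg_of_neg_of_pos (by linarith) hPhi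
    linarith
  have hup : ed F f s0 + gd F f w0 ≤ t := by
    have h1 : ((ed F f s0 + gd F f w0 : ℕ) : ℝ) < t + 1 := lt_of_le_of_lt hle hC.lt
    have h2 : ed F f s0 + gd F f w0 < t + 1 := by exact_mod_cast h1
    omega
  have heq : ed F f s0 + gd F f w0 = t := le_antisymm hup hlow
  rw [heq] at hsum
  exact ⟨ed F f s0, gd F f w0, heq, hem, hgm, ⟨s0, hs0', rfl⟩, ⟨w0, hw0', rfl⟩, hsum⟩

end Pool.Agent.H62.Lap
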